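import Pool.Agent.Helper52.KT.St

/-! Project KT, module A1. -/

set_option autoImplicit false

namespace Pool.Agent.Helper33.KT

open Pool.Agent.Helper26.Kempe Pool.Agent.Helper52.KT Pool.Agent.Helper52.KT.St
open Pool.Agent.Helper52.KR (N Zc Mn Hs)
open scoped Classical

private theorem ne_nil {V : Type} [Fintype V] {e : List V → Finset V} {r : V} {R' P : List V}
    {m : ℕ} (h : P ∈ Ex e (r :: R') m) : ∃ y P'', P = y :: P'' := by
  have h1 := Ex_length h
  cases P with
  | nil => simp at h1; omega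
  | cons y P'' => exact ⟨y, P'', rfl⟩

theorem hA1 : A1 := by
  intro V _ v e w ρ Y r0 lam r R' hw hρ hr0 hlam hin hY hWt
  have hρ0 : ∀ z, 0 < ρ z := fun z => lt_of_lt_of_le hr0 (hρ z)
  -- one step
  have hstep : ∀ (m : ℕ) (P : List V), P ∈ Ex e (r :: R') m → ∀ b,
      Wt w ρ (b :: P) = w (hd v P) b / ρ (hd v P) * Wt w ρ P := by
    intro m P hP b
    obtain ⟨y, P'', rfl⟩ := ne_nil hP
    rfl
  have hnn : ∀ (m : ℕ) (P : List V), P ∈ Ex e (r :: R') m → 0 ≤ Wt w ρ P := by
    intro m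
    induction m with
    | zero =>
      intro P hP
      simp only [Ex, Finset.mem_singleton] at hP
      rw [hP]
      exact hWt
    | succ m ih =>
      intro P hP
      obtain ⟨P', hP', b, _, rfl⟩ := mem_Ex_succ.1 hP
      rw [hstep m P' hP' b]
      exact mul_nonneg (div_nonneg (hw _ _).1 (hρ0 _).le) (ih P' hP')
  -- the sum over paths with a given head
  have hsum : ∀ (m : ℕ) (z : V),
      ∑ P ∈ (Ex e (r :: R') (m + 1)).filter (fun P => hd v P = z), Wt w ρ P =
        ∑ P ∈ (Ex e (r :: R') m).filter (fun P => z ∈ e P),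
          w (hd v P) z / ρ (hd v P) * Wt w ρ P := by
    intro m z
    have h1 : (Ex e (r :: R') (m + 1)).filter (fun P => hd v P = z) =
        ((Ex e (r :: R') m).filter (fun P => z ∈ e P)).image (fun P => z :: P) := by
      ext P
      simp only [Finset.mem_filter, Finset.mem_image]
      constructor
      · rintro ⟨h2, h3⟩
        obtain ⟨P', hP', b, hb, rfl⟩ := mem_Ex_succ.1 h2
        have h4 : b = z := h3
        subst h4
        exact ⟨P', ⟨hP', hb⟩, rfl⟩
      · rintro ⟨P', ⟨hP', hb⟩, rfl⟩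
        exact ⟨mem_Ex_succ.2 ⟨P', hP', z, hb, rfl⟩, rfl⟩
    rw [h1, Finset.sum_image (fun a _ b _ h => (List.cons.inj h).2)]
    refine Finset.sum_congr rfl fun P hP => ?_
    exact hstep m P (Finset.mem_filter.1 hP).1 z
  intro m
  induction m with
  | zero =>
    intro z
    rw [hsum 0 z]
    have h1 : ∑ P ∈ (Ex e (r :: R') 0).filter (fun P => z ∈ e P),
        w (hd v P) z / ρ (hd v P) * Wt w ρ P ≤
        ∑ P ∈ Ex e (r :: R') 0, w (hd v P) z / ρ (hd v P) * Wt w ρ P := by
      refine Finset.sum_le_sum_of_subset_of_nonneg (Finset.filter_subset _ _) fun P hP _ => ?_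
      exact mul_nonneg (div_nonneg (hw _ _).1 (hρ0 _).le) (hnn 0 P hP)
    refine h1.trans ?_
    have h2 : ∑ P ∈ Ex e (r :: R') 0, w (hd v P) z / ρ (hd v P) * Wt w ρ P =
        w r z / ρ r * Wt w ρ (r :: R') := by
      simp [Ex, hd]
    rw [h2, pow_zero, mul_one]
    have h3 : w r z / ρ r ≤ ρ z / r0 ^ 2 := by
      rw [div_le_div_iff₀ (hρ0 r) (by positivity)]
      have a1 := (hw r z).2
      have a0 := (hw r z).1
      have a2 := hρ r
      have a3 := hρ z
      have h4 : r0 * r0 ≤ ρ z * ρ r := mul_le_mul a3 a2 hr0.le (hρ0 z).le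
      have h5 : 0 ≤ r0 ^ 2 := by positivity
      nlinarith
    calc w r z / ρ r * Wt w ρ (r :: R') ≤ ρ z / r0 ^ 2 * Wt w ρ (r :: R') :=
          mul_le_mul_of_nonneg_right h3 hWt
      _ = Wt w ρ (r :: R') * ρ z / r0 ^ 2 := by ring
  | succ m ih =>
    intro z
    rw [hsum (m + 1) z]
    have h1 : ∑ P ∈ (Ex e (r :: R') (m + 1)).filter (fun P => z ∈ e P),
        w (hd v P) z / ρ (hd v P) * Wt w ρ P ≤
        ∑ P ∈ Ex e (r :: R') (m + 1), w (hd v P) z / ρ (hd v P) * Wt w ρ P := by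
      refine Finset.sum_le_sum_of_subset_of_nonneg (Finset.filter_subset _ _) fun P hP _ => ?_
      exact mul_nonneg (div_nonneg (hw _ _).1 (hρ0 _).le) (hnn (m + 1) P hP)
    refine h1.trans ?_
    have h2 : ∑ P ∈ Ex e (r :: R') (m + 1), w (hd v P) z / ρ (hd v P) * Wt w ρ P =
        ∑ y ∈ Y, ∑ P ∈ (Ex e (r :: R') (m + 1)).filter (fun P => hd v P = y),
          w (hd v P) z / ρ (hd v P) * Wt w ρ P := by
      refine (Finset.sum_fiberwise_of_maps_to (fun P hP => ?_) _).symm
      obtain ⟨P', hP', b, hb, rfl⟩ := mem_Ex_succ.1 hP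
      exact hY m P' hP' b hb
    rw [h2]
    have h3 : ∀ y ∈ Y, ∑ P ∈ (Ex e (r :: R') (m + 1)).filter (fun P => hd v P = y),
          w (hd v P) z / ρ (hd v P) * Wt w ρ P ≤
        Wt w ρ (r :: R') / (r0 ^ 2 * lam ^ m) * w y z := by
      intro y _
      calc ∑ P ∈ (Ex e (r :: R') (m + 1)).filter (fun P => hd v P = y),
            w (hd v P) z / ρ (hd v P) * Wt w ρ P
          = ∑ P ∈ (Ex e (r :: R') (m + 1)).filter (fun P => hd v P = y),
            w y z / ρ y * Wt w ρ P := by
            refine Finset.sum_congr rfl fun P hP => ?_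
            rw [(Finset.mem_filter.1 hP).2]
        _ = w y z / ρ y * ∑ P ∈ (Ex e (r :: R') (m + 1)).filter (fun P => hd v P = y),
            Wt w ρ P := by rw [Finset.mul_sum]
        _ ≤ w y z / ρ y * (Wt w ρ (r :: R') * ρ y / (r0 ^ 2 * lam ^ m)) :=
            mul_le_mul_of_nonneg_left (ih y) (div_nonneg (hw _ _).1 (hρ0 _).le)
        _ = Wt w ρ (r :: R') / (r0 ^ 2 * lam ^ m) * w y z := by
            have := (hρ0 y).ne'
            field_simp
    refine (Finset.sum_le_sum h3).trans ?_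
    rw [← Finset.mul_sum]
    have h4 : ∑ y ∈ Y, w y z ≤ ρ z / lam := by
      rw [le_div_iff₀ hlam, mul_comm]
      exact hin z
    have h5 : 0 ≤ Wt w ρ (r :: R') / (r0 ^ 2 * lam ^ m) := div_nonneg hWt (by positivity)
    refine (mul_le_mul_of_nonneg_left h4 h5).trans (le_of_eq ?_)
    field_simp
    ring

end Pool.Agent.Helper33.KT
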